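import Pool.Agent.Q100.SL.Fin

/-! # Asymptotic learning in a deterministic observation network with bounded signals (MP_a79c01_pr)

Full (affirmative) answer to Q1: there is a deterministic network in which Bayesian agents with
symmetric binary private signals of accuracy `51/100` learn the state asymptotically. -/

set_option autoImplicit false

open MeasureTheory

namespace Pool.Agent.Results.MP_a79c01_pr.DeterministicNetworkLearning

/-- The model with neighbourhoods `N n` (agents are numbered `0, 1, 2, …`) and symmetric binary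
private signals of accuracy `p`, on a probability space `(Ω, P)`: the state `θ` has the uniform
prior and the signals `s 0, s 1, …` are i.i.d. given the state with `P(s n = θ | θ) = p` (`signals`
gives the joint law of the state and the first `n` signals, `n = 0` gives the prior). Agent `n`
observes `s n` and the actions `a m`, `m ∈ N n`; her action `a n` maximises the posterior expected
payoff: it is `1` (`true`) if and only if the posterior probability of `θ = 1` given her
observations is at least that of `θ = 0` (ties are broken towards `1`). -/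
structure Model (p : ℝ) (N : ℕ → Finset ℕ) {Ω : Type} [MeasurableSpace Ω] (P : Measure Ω)
    (θ : Ω → Bool) (s a : ℕ → Ω → Bool) : Prop where
  prob : IsProbabilityMeasure P
  measurable_state : Measurable θ
  measurable_signal : ∀ n, Measurable (s n)
  signals : ∀ (b : Bool) (n : ℕ) (σ : ℕ → Bool), P.real {ω | θ ω = b ∧ ∀ i < n, s i ω = σ i} =
    1 / 2 * ∏ i ∈ Finset.range n, (if σ i = b then p else 1 - p)
  bayes : ∀ n ω, a n ω = true ↔
    P.real {ω' | θ ω' = false ∧ s n ω' = s n ω ∧ ∀ m ∈ N n, a m ω' = a m ω} ≤
    P.real {ω' | θ ω' = true ∧ s n ω' = s n ω ∧ ∀ m ∈ N n, a m ω' = a m ω}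

/-- There is a deterministic network (`N n ⊆ {0, …, n - 1}`) such that the model with signals of
accuracy `51/100` exists, and in every such model `P(a_n = θ) → 1`. -/
theorem result : ∃ N : ℕ → Finset ℕ, (∀ n, N n ⊆ Finset.range n) ∧
    (∃ (Ω : Type) (_ : MeasurableSpace Ω) (P : Measure Ω) (θ : Ω → Bool) (s a : ℕ → Ω → Bool),
      Model (51 / 100) N P θ s a) ∧
    ∀ (Ω : Type) (_ : MeasurableSpace Ω) (P : Measure Ω) (θ : Ω → Bool) (s a : ℕ → Ω → Bool),
      Model (51 / 100) N P θ s a →
      Filter.Tendsto (fun n => P.real {ω | a n ω = θ ω}) Filter.atTop (nhds 1) := by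
  obtain ⟨N, h1, ⟨Ω, mΩ, P, θ, s, a, h⟩, h3⟩ := Q100.SL.learning
  refine ⟨N, h1, ⟨Ω, mΩ, P, θ, s, a, ⟨h.prob, h.mθ, h.ms, h.signals, h.bayes⟩⟩, ?_⟩
  intro Ω mΩ P θ s a h
  exact h3 Ω mΩ P θ s a ⟨h.prob, h.measurable_state, h.measurable_signal, h.signals, h.bayes⟩

end Pool.Agent.Results.MP_a79c01_pr.DeterministicNetworkLearning
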